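import Pool.Agent.MP_515f4e_co.Final

set_option autoImplicit false

namespace Pool.Agent.MP_515f4e_co.Forms.NearPureExpGrowth

open Pool.Agent.MP_515f4e_co

/-- For every degree bound `D` and every `c > 0` there is `ε > 0` such that no infinite connected
graph with degrees at most `D`, whose largest balls satisfy
`c₁ lam ^ n ≤ max_v |B(v,n)| ≤ C n ^ ε lam ^ n` for some `lam, c₁, C > 0`, has all its balls with
Cheeger constant greater than `c`. -/
theorem result (D : ℕ) (c : ℝ) (hc : 0 < c) :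
    ∃ ε : ℝ, 0 < ε ∧ ∀ (V : Type) (G : SimpleGraph V), Infinite V → G.Connected →
      (∀ v : V, (G.neighborSet v).encard ≤ (D : ℕ∞)) →
      ∀ lam c₁ C : ℝ, 0 < lam → 0 < c₁ →
        (∀ n : ℕ, ∃ v : V, c₁ * lam ^ n ≤ ({w : V | G.dist v w ≤ n}.ncard : ℝ)) →
        (∀ (v : V) (n : ℕ), 1 ≤ n →
          ({w : V | G.dist v w ≤ n}.ncard : ℝ) ≤ C * (n : ℝ) ^ ε * lam ^ n) →
        ∃ (v : V) (r : ℕ) (S : Finset V),
          (∀ w ∈ S, G.dist v w ≤ r) ∧ 0 < S.card ∧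
          2 * S.card ≤ {w : V | G.dist v w ≤ r}.ncard ∧
          (({w : V | G.dist v w ≤ r ∧ w ∉ S ∧ ∃ s ∈ S, G.Adj s w}.ncard : ℕ) : ℝ) ≤
            c * (S.card : ℝ) := by
  refine ⟨expo D c, expo_pos D c hc, ?_⟩
  intro V G hV hG hD lam c₁ C hlam hc₁ hlow hup
  by_contra hcon
  push Not at hcon
  exact final D c hc hG hD lam c₁ C hlam hc₁ hlow hup
    (fun v r S h1 h2 h3 => hcon v r S h1 h2 h3)

end Pool.Agent.MP_515f4e_co.Forms.NearPureExpGrowth
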